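import Pool.Agent.Lead.WF.C

set_option autoImplicit false

namespace Pool.Agent.Results.MP_7fabd3_an.FactorTwoFails

open MeasureTheory Set Filter Real Pool.Agent.Lead.WF

lemma mom (φ : ℝ → ℝ) (hφ : Continuous φ) (v : ℝ)
    (hv : ∀ x y z : ℝ, x ∈ Ioo (-11:ℝ) (-7) → y ∈ Ioo (-7:ℝ) (-2) → z ∈ Ioo (13:ℝ) 14 →
      x + y + z = 0 → x * y + x * z + y * z = -147 →
      (x - 64 / 5) / (x - 7) * φ x + (y - 64 / 5) / (y - 7) * φ y + (z - 64 / 5) / (z - 7) * φ z
        = 3 * v) : ∫ x, φ x ∂(mu (64 / 5)) = v := by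
  have h7 : ∀ x ∈ KK, x - 7 ≠ 0 := by
    rintro x (hx | hx) h <;> linarith [hx.1, hx.2]
  obtain ⟨-, b⟩ := K1 (fun x => (x - 64 / 5) / (x - 7) * φ x) (by fun_prop)
    (ContinuousOn.mul (ContinuousOn.div (by fun_prop) (by fun_prop) h7) hφ.continuousOn) v hv
  rw [mu_dens, integral_withDensity_eq_integral_toReal_smul (by fun_prop)
    (Eventually.of_forall (fun _ => ENNReal.ofReal_lt_top)), ← b]
  apply integral_congr_ae
  filter_upwards [mu_ae 7] with x hx
  rw [ENNReal.toReal_ofReal (by positivity), smul_eq_mul, ← abs_div, abs_of_nonneg]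
  rcases hx with hx | hx
  · exact div_nonneg_of_nonpos (by linarith [hx.2]) (by linarith [hx.2])
  · exact div_nonneg (by linarith [hx.1]) (by linarith [hx.1])

lemma recip {x y z : ℝ} (hx : x ∈ Ioo (-11:ℝ) (-7)) (hy : y ∈ Ioo (-7:ℝ) (-2))
    (hz : z ∈ Ioo (13:ℝ) 14) (h1 : x + y + z = 0) (h2 : x * y + x * z + y * z = -147) :
    (x - 7)⁻¹ + (y - 7)⁻¹ + (z - 7)⁻¹ = 0 ∧ (x - 7) * (x - 7)⁻¹ = 1 ∧ (y - 7) * (y - 7)⁻¹ = 1 ∧
      (z - 7) * (z - 7)⁻¹ = 1 := by
  have a : x - 7 ≠ 0 := by linarith [hx.2]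
  have b : y - 7 ≠ 0 := by linarith [hy.2]
  have c : z - 7 ≠ 0 := by linarith [hz.1]
  refine ⟨?_, mul_inv_cancel₀ a, mul_inv_cancel₀ b, mul_inv_cancel₀ c⟩
  field_simp
  linear_combination h2 - 14 * h1

theorem result : ∃ (l : ℕ) (α β : Fin (l + 1) → ℝ) (γ : Fin l → ℝ) (ν : Measure ℝ) (n : ℕ),
    (∀ j, α j < β j) ∧
    (∀ j : Fin l, β j.castSucc < α j.succ ∧ β j.castSucc ≤ γ j ∧ γ j ≤ α j.succ) ∧
    IsEquilibrium (gapSet α β) ν ∧ 1 ≤ n ∧
    IsProbabilityMeasure (reflMeasure α β γ) ∧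
    Integrable (fun x => Real.log ((reflMeasure α β γ).rnDeriv ν x).toReal) ν ∧
    widom (reflMeasure α β γ) ν n ^ 2 < 2 * szego (reflMeasure α β γ) ν := by
  have hT1 : Tf (64 / 5) = -16903 / 12500 := by norm_num [Tf]
  have hT2 : Tf 7 = -293 / 50 := by norm_num [Tf]
  obtain ⟨i1, e1⟩ := K4 (64 / 5) (by norm_num) (by rw [hT1]; norm_num)
  obtain ⟨i2, e2⟩ := K4 7 (by norm_num) (by rw [hT2]; norm_num)
  have hrn : (fun x => Real.log ((mu (64 / 5)).rnDeriv (mu 7) x).toReal) =ᵐ[mu 7]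
      fun x => Real.log |64 / 5 - x| - Real.log |7 - x| := by
    have := Measure.rnDeriv_withDensity (mu 7)
      (f := fun x => ENNReal.ofReal (|x - 64 / 5| / |x - 7|)) (by fun_prop)
    rw [← mu_dens] at this
    filter_upwards [this, mu_ae 7] with x h hx
    rw [h, ENNReal.toReal_ofReal (by positivity), Real.log_div, abs_sub_comm x, abs_sub_comm x]
    · rcases hx with hx | hx <;> rw [abs_ne_zero] <;> intro h <;> linarith [hx.1, hx.2]
    · rcases hx with hx | hx <;> rw [abs_ne_zero] <;> intro h <;> linarith [hx.1, hx.2]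
  refine ⟨1, ![-11, 13], ![-2, 14], ![64 / 5], mu 7, 1, ?_, ?_, gap_eq ▸ equil, le_rfl, ?_,
    (i1.sub i2).congr hrn.symm, ?_⟩
  · intro j; fin_cases j <;> norm_num
  · intro j; fin_cases j; norm_num
  · change IsProbabilityMeasure (mu (64 / 5))
    rw [isProbabilityMeasure_iff_real]
    have := mom (fun _ => 1) continuous_const 1 (fun x y z hx hy hz h1 h2 => by
      obtain ⟨a, b, c, d⟩ := recip hx hy hz h1 h2
      simp only [div_eq_mul_inv (_ - _)]
      linear_combination (7 - 64 / 5) * a + b + c + d)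
    simpa using this
  · change widom (mu (64 / 5)) (mu 7) 1 ^ 2 < 2 * szego (mu (64 / 5)) (mu 7)
    have hv := mom (fun x => (x + 29 / 5) ^ 2) (by fun_prop) (594 / 25)
      (fun x y z hx hy hz h1 h2 => by
        obtain ⟨a, b, c, d⟩ := recip hx hy hz h1 h2
        simp only [div_eq_mul_inv (_ - _)]
        linear_combination ((64 / 5) ^ 2 * (7 - 64 / 5)) * a
          + (x ^ 2 + 29 / 5 * x - 1856 / 25) * b + (y ^ 2 + 29 / 5 * y - 1856 / 25) * c
          + (z ^ 2 + 29 / 5 * z - 1856 / 25) * d + (x + y + z + 29 / 5) * h1 - 2 * h2)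
    have hinf : (⨅ P : {P : Polynomial ℝ // P.Monic ∧ P.natDegree = 1},
        Real.sqrt (∫ x, (P.1.eval x) ^ 2 ∂(mu (64 / 5)))) ≤ Real.sqrt (594 / 25) := by
      refine ciInf_le_of_le ⟨0, by rintro _ ⟨P, rfl⟩; exact Real.sqrt_nonneg _⟩
        ⟨Polynomial.X + Polynomial.C (29 / 5), Polynomial.monic_X_add_C _,
          Polynomial.natDegree_X_add_C _⟩ ?_
      simp only [Polynomial.eval_add, Polynomial.eval_X, Polynomial.eval_C, hv, le_refl]
    have h0 : 0 ≤ (⨅ P : {P : Polynomial ℝ // P.Monic ∧ P.natDegree = 1},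
        Real.sqrt (∫ x, (P.1.eval x) ^ 2 ∂(mu (64 / 5)))) :=
      Real.iInf_nonneg fun _ => Real.sqrt_nonneg _
    have hsq := pow_le_pow_left₀ h0 hinf 2
    rw [Real.sq_sqrt (by norm_num)] at hsq
    rw [widom, szego, integral_congr_ae hrn, integral_sub i1 i2, e1, e2, energy_mu, pow_one,
      div_pow, div_lt_iff₀ (by positivity)]
    refine hsq.trans_lt ?_
    set A := -Tf (64 / 5) + Real.sqrt (Tf (64 / 5) ^ 2 - 1) with hA
    set B := -Tf 7 + Real.sqrt (Tf 7 ^ 2 - 1) with hB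
    have hA1 : 226 / 100 ≤ A := by
      have : 91 / 100 ≤ Real.sqrt (Tf (64 / 5) ^ 2 - 1) :=
        Real.le_sqrt_of_sq_le (by rw [hT1]; norm_num)
      rw [hA]; rw [hT1] at this ⊢; linarith
    have hB1 : B ≤ 1164 / 100 := by
      have : Real.sqrt (Tf 7 ^ 2 - 1) ≤ 578 / 100 :=
        Real.sqrt_le_iff.mpr ⟨by norm_num, by rw [hT2]; norm_num⟩
      rw [hB]; rw [hT2] at this ⊢; linarith
    have hB0 : 0 < B := by
      have := Real.sqrt_nonneg (Tf 7 ^ 2 - 1)
      rw [hB]; rw [hT2] at this ⊢; linarith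
    apply lt_of_pow_lt_pow_left₀ 3 (by positivity)
    rw [mul_pow, mul_pow, ← pow_mul, ← Real.exp_nat_mul, ← Real.exp_nat_mul,
      show ((3:ℕ):ℝ) * ((Real.log 100 + Real.log A) / 3 - (Real.log 100 + Real.log B) / 3) =
        Real.log A - Real.log B by push_cast; ring,
      show ((2 * 3:ℕ):ℝ) * (Real.log 100 / 3) = Real.log 100 + Real.log 100 by push_cast; ring,
      Real.exp_sub, Real.exp_add, Real.exp_log (by linarith), Real.exp_log hB0,
      Real.exp_log (by norm_num)]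
    have : 226 / 100 / (1164 / 100) ≤ A / B := by gcongr
    linarith

end Pool.Agent.Results.MP_7fabd3_an.FactorTwoFails
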